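import Pool.Agent.WAP.StmtsP2

namespace Pool.Agent.WAP.H80

open Pool.Agent.WAP Pool.Agent.WAP.P2 Classical

theorem even_d {F : Type} [NormedField F] [Algebra GaussianInt F] {v : F → ℤ} (hv : IsV F v)
    (hevn : EvnStmt) (d : F) (P : Pt d) (hd : d ≠ 0) (hP : P ≠ 0) (hA : TypA v (cX P / d)) :
    v d % 2 = 0 := by
  rcases P with _ | ⟨X, Y, h⟩
  · exact absurd rfl hP
  · have heq := (W_equation d X Y).mp h.1
    have hA' : TypA v (X / d) := hA
    obtain ⟨hc0, hc2⟩ := (hevn F v hv).1 (X / d) hA'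
    have h1 : Y ^ 2 = d ^ 3 * cub (X / d) := by
      rw [heq]
      unfold cub
      field_simp
    have hd3 : d ^ 3 ≠ 0 := pow_ne_zero 3 hd
    have hY : Y ≠ 0 := by
      rintro rfl
      have h2 : d ^ 3 * cub (X / d) = 0 := by
        rw [← h1]
        ring
      rcases mul_eq_zero.mp h2 with h | h
      · exact hd3 h
      · exact hc0 h
    have h2 := hv.pow Y hY 2
    have h3 := hv.mul (d ^ 3) (cub (X / d)) hd3 hc0
    have h4 := hv.pow d hd 3
    rw [h1, h3, h4, hc2] at h2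
    push_cast at h2
    omega

theorem aas (hcol : ColStmt) (hevn : EvnStmt) : AasStmt := by
  intro F _ _ v hv d P Q hd hP hQ hA hB hC
  have heven := even_d hv hevn d P hd hP hA
  have hPQ : P + Q ≠ 0 := by
    intro h0
    apply hC.1
    rw [h0]
    show (0 : F) / d = 0
    exact zero_div d
  obtain ⟨m, hm⟩ := hcol F d hv.two_ne hd P Q hP hQ hPQ
  have a1 : cX P / d - 1 ≠ 0 := sub_ne_zero.mpr hA.2.1
  have a2 : cX Q / d - 1 ≠ 0 := sub_ne_zero.mpr hB.2.1
  have a3 : cX (P + Q) / d - 1 ≠ 0 := sub_ne_zero.mpr hC.2.1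
  have hm0 : m ≠ 0 := by
    rintro rfl
    rw [show d * (0 : F) ^ 2 = 0 by ring] at hm
    exact mul_ne_zero (mul_ne_zero a1 a2) a3 hm
  have h1 := hv.mul _ _ (mul_ne_zero a1 a2) a3
  have h2 := hv.mul _ _ a1 a2
  have h3 := hv.mul d (m ^ 2) hd (pow_ne_zero 2 hm0)
  have h4 := hv.pow m hm0 2
  rw [hm, h3, h4, h2, hA.2.2.2, hB.2.2.2, hC.2.2.2] at h1
  push_cast at h1
  omega

end Pool.Agent.WAP.H80
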